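import Pool.Agent.N856.JM.P.Def
import Pool.Agent.N637.P21.AsmB

/-!
# JM: the twists of `X_0(21)` (helpers 637, 877 and others)
-/

set_option autoImplicit false
set_option linter.style.haveILetI false

open WeierstrassCurve MeasureTheory Filter Topology Finset

namespace Pool.Agent.N856.JM.P.C21

open scoped Classical

open Pool.Agent.TH841.SH.D (Sha)
open Pool.Agent.N637.P21 (WN WNQ Em EQm Ao Ae t2 strongO strongE rel_odd rel_even crit_ao_N crit_ae)
open Pool.Agent.N875.X15 (Fin2)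
open Pool.Agent.N916.TE (Go)

lemma pos_t (n : ℕ) (a b : ℕ) : 0 < 4 ^ n.primeFactors.card * (t2 a n * t2 b n) := by
  refine Nat.mul_pos (pow_pos (by norm_num) _) (Nat.mul_pos ?_ ?_) <;> unfold t2 <;> split_ifs <;>
    norm_num

theorem odd_case {n : ℕ} (h : Ao n) : Data (E21 n) (Pool.Agent.N969.P15.Qc n) := by
  have ho : n % 2 = 1 := by have := h.2.1; omega
  have em : m n = -(n : ℤ) := if_pos ho
  have eE : E21 n = WN (-(n : ℤ)) := by
    unfold E21
    rw [if_pos ho, em]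
    rfl
  obtain ⟨hmin, ht, htor, hΩ, f, w, y, hf, hw0, hw, hyQ, hval⟩ := strongO h (rel_odd h)
  have hfin := crit_ao_N h
  rw [eE]
  exact data_of hmin (pos_t _ _ _) ht htor hΩ hf hw0 hw hyQ hval hfin

theorem even_case {n : ℕ} (h : Ae n) : Data (E21 n) (Pool.Agent.N969.P15.Qe n) := by
  have ho : ¬ n % 2 = 1 := by
    obtain ⟨⟨k, rfl, -⟩, -⟩ := h
    omega
  have em : m n = -((n / 4 : ℕ) : ℤ) := if_neg ho
  have eE : E21 n = Em (-((n / 4 : ℕ) : ℤ)) := by
    unfold E21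
    rw [if_neg ho, em]
    rfl
  obtain ⟨hmin, ht, htor, hΩ, f, w, y, hf, hw0, hw, hyQ, hval⟩ := strongE h (rel_even h)
  have hfin := crit_ae h
  rw [eE]
  exact data_of hmin (pos_t _ _ _) ht htor hΩ hf hw0 hw hyQ hval hfin

theorem data {n : ℕ} (h : FundNeg n) (hc : n % 3 ≠ 2 ∧ (n % 7 = 0 ∨ n % 7 = 3 ∨ n % 7 = 5 ∨ n % 7 = 6)) :
    Data (E21 n) (Go n) := by
  rcases h with ⟨hs, h4⟩ | hE
  · have ho : n % 2 = 1 := by omega
    have hg : Go n ↔ Pool.Agent.N969.P15.Qc n :=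
      ⟨fun h => h.1 ho, fun h => ⟨fun _ => h, fun h2 => by omega⟩⟩
    rw [propext hg]
    exact odd_case ⟨hs, h4, hc.1, hc.2⟩
  · have ho : n % 2 = 0 := by
      obtain ⟨k, rfl, -⟩ := hE
      omega
    have hg : Go n ↔ Pool.Agent.N969.P15.Qe n :=
      ⟨fun h => h.2 ho, fun h => ⟨fun h2 => by omega, fun _ => h⟩⟩
    rw [propext hg]
    exact even_case ⟨hE, hc.1, hc.2⟩

end Pool.Agent.N856.JM.P.C21
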