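import Pool.Agent.N856.JM.P.Def
import Pool.Agent.N877.P24.All
import Pool.Agent.N877.P24.LE

/-!
# JM: the twists of `X_0(24)` (helpers 877, 373, 402 and others)
-/

set_option autoImplicit false
set_option linter.style.haveILetI false

open WeierstrassCurve MeasureTheory Filter Topology Finset

namespace Pool.Agent.N856.JM.P.C24

open scoped Classical

open Pool.Agent.TH841.SH.D (Sha)
open Pool.Agent.N877.P24
open Pool.Agent.N877.P24.All (Tm QQ crit_all sha_all t_DIAGA3 t_DIAGE2 t_DIAGE6 t_PARE qc_three cc_three)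
open Pool.Agent.N373.P24.Forms (W24)
open Pool.Agent.N373.P24x (cX)
open Pool.Agent.N971.MF (W)
open Pool.Agent.N402.P24L (Value)
open Pool.Agent.N916.TE (Go)

lemma sq4 (k : ℕ) : (4 : ℝ) ^ k = (2 ^ k) ^ 2 := by
  rw [← pow_mul, mul_comm, pow_mul]
  norm_num

theorem val_odd {n : ℕ} (hn : Squarefree n) (h8 : n % 8 = 3) (h3 : n % 3 ≠ 1) :
    ∃ y : ℤ, Value n ((y : ℝ) ^ 2 * Tm n / 16) ∧ (Odd y ↔ QQ n) := by
  have hq : QQ n ↔ Pool.Agent.N877.P24.Qc n := ⟨fun h => h.1 (by omega), fun h => ⟨fun _ => h, fun h0 => by omega⟩⟩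
  rw [hq]
  have h2 : ¬ 2 ∣ n := by omega
  rcases (by omega : n % 3 = 2 ∨ n % 3 = 0) with h | h
  · have h24 : n % 24 = 11 := by omega
    obtain ⟨f, k1, k2, k3, k4, k5⟩ := value24 hn h24
    obtain ⟨g, hg1, hg2⟩ := Pool.Agent.N878.P24.t_PAR t_R n ⟨hn, h24⟩
    refine ⟨g, ⟨f, k1, k2, ?_, k4, fun s hs => euler_W h24 (k5 s hs)⟩, hg2⟩
    rw [k3, hg1]
    congr 2
    unfold Tm
    rw [if_neg h2, if_neg (by omega)]
    push_cast
    rw [sq4]
    ring
  · have h24 : n % 24 = 3 := by omega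
    have hA : ClA3 n := ⟨hn, h24⟩
    obtain ⟨f, k1, k2, k3, k4, k5⟩ := Pool.Agent.N402.P24L.valueA3 t_DIAGA3
      Pool.Agent.N490.P24.t_SUMC hA
    have hp : ∃ y : ℤ, cc n = 12 * 2 ^ n.primeFactors.card * y ∧ (Odd y ↔ Pool.Agent.N877.P24.Qc n) := by
      by_cases h0 : n = 3
      · subst h0
        refine ⟨-1, ?_, ⟨fun _ => qc_three, fun _ => odd_neg_one⟩⟩
        rw [Nat.Prime.primeFactors Nat.prime_three, Finset.card_singleton]
        exact cc_three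
      · exact Pool.Agent.N42.P24x.t_PARA3 n hA (by omega)
    obtain ⟨g, hg1, hg2⟩ := hp
    refine ⟨g, ⟨f, k1, k2, ?_, k4, k5⟩, hg2⟩
    rw [k3, hg1]
    congr 2
    unfold Tm
    rw [if_neg h2, if_pos (by omega)]
    push_cast
    rw [sq4]
    ring

theorem val_even {n : ℕ} (hn : Squarefree n) (h4 : n % 4 = 2) (h3 : n % 3 ≠ 1) :
    ∃ y : ℤ, Value n ((y : ℝ) ^ 2 * Tm n / 16) ∧ (Odd y ↔ QQ n) := by
  have hq : QQ n ↔ Pool.Agent.N969.P15.Qe (4 * n) :=
    ⟨fun h => h.2 (by omega), fun h => ⟨fun h0 => by omega, fun _ => h⟩⟩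
  rw [hq]
  have h2 : 2 ∣ n := by omega
  rcases (by omega : n % 3 = 2 ∨ n % 3 = 0) with h | h
  · have hE : ClE2 n := ⟨hn, by omega⟩
    obtain ⟨f, k1, k2, k3, k4, k5⟩ := Pool.Agent.N402.P24L.valueE2 t_DIAGE2
      Pool.Agent.N490.P24.t_SUMC hE
    obtain ⟨g, hg1, hg2⟩ := t_PARE n (Or.inl hE)
    refine ⟨g, ⟨f, k1, k2, ?_, k4, k5⟩, hg2⟩
    rw [k3, hg1]
    congr 2
    unfold Tm
    rw [if_pos h2, if_neg (by omega)]
    push_cast
    rw [sq4]
    ring
  · have hE : ClE6 n := ⟨hn, by omega⟩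
    obtain ⟨f, k1, k2, k3, k4, k5⟩ := Pool.Agent.N402.P24L.valueE6 t_DIAGE6
      Pool.Agent.N490.P24.t_SUMC hE
    obtain ⟨g, hg1, hg2⟩ := t_PARE n (Or.inr hE)
    refine ⟨g, ⟨f, k1, k2, ?_, k4, k5⟩, hg2⟩
    rw [k3, hg1]
    congr 2
    unfold Tm
    rw [if_pos h2, if_pos (by omega)]
    push_cast
    rw [sq4]
    ring

theorem val_all {n : ℕ} (hn : Squarefree n) (hc : n % 8 = 3 ∨ n % 4 = 2)
    (h3 : n % 3 ≠ 1) : ∃ y : ℤ, Value n ((y : ℝ) ^ 2 * Tm n / 16) ∧ (Odd y ↔ QQ n) := by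
  rcases hc with h | h
  · exact val_odd hn h h3
  · exact val_even hn h h3

/-- the twist by `-n`, `n` squarefree -/
def tw (n : ℕ) : WeierstrassCurve ℤ := ⟨0, -2 * n, 0, -3 * n ^ 2, 0⟩

lemma W_eq (n : ℕ) : W n = tw n := by
  unfold Pool.Agent.N971.MF.W tw
  congr 1

lemma base_eq (n : ℕ) : base (tw n) ℚ = Pool.Agent.N373.P24.EQm (-(n : ℤ)) := by
  have : tw n = W24 n := rfl
  rw [this, Pool.Agent.N373.P24.Forms.W24_eq]

/-- one curve -/
theorem data_tw {n : ℕ} (hn : Squarefree n) (hc : n % 8 = 3 ∨ n % 4 = 2) (h3 : n % 3 ≠ 1) :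
    Data (tw n) (QQ n) := by
  have h1n : 1 < n := by omega
  obtain ⟨y, ⟨L, hL1, -, hL3, hL4, hL5⟩, hy⟩ := val_all hn hc h3
  have htor : Nat.card (AddCommGroup.torsion (base (tw n) ℚ).toAffine.Point) = 4 :=
    Pool.Agent.N373.P24x.tors_fourX hn h1n
  have hTm : Tam (tw n) (cX n) = Tm n := Pool.Agent.N373.P24x.tamX hn
  have hTp : 0 < Tm n := by
    unfold Tm
    split_ifs <;> positivity
  have hrk : (Finite (base (tw n) ℚ).toAffine.Point ∧
      ∀ x : Sha (base (tw n) ℚ), 2 • x = 0 → x = 0) ↔ QQ n := by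
    rw [← crit_all hn hc h3, base_eq]
    refine and_congr Iff.rfl (forall_congr' fun x => ?_)
    rw [two_nsmul]
  have hom : Omega (tw n) = 2 * ∫ x in {x : ℝ | 0 < Pool.Agent.N971.MF.cubic (W n) x},
      1 / √(Pool.Agent.N971.MF.cubic (W n) x) := by
    rw [W_eq]
    rfl
  have hΩ : 0 < Omega (tw n) := by
    rw [hom]
    linarith
  rw [← hom] at hL3
  rw [W_eq] at hL5
  refine ⟨Pool.Agent.N373.P24x.minimalX hn hc, ⟨L, cX n, 1, y, ⟨hL1, hL5⟩,
    Pool.Agent.N373.P24x.tamagawaX hn hc, ?_, ?_, hΩ, one_ne_zero, by simp, ?_, hy⟩, hrk,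
    fun hQ => ?_⟩
  · rw [hTm]
    exact hTp
  · rw [htor]
    norm_num
  · rw [hL3, htor, hTm]
    push_cast
    ring
  · rw [base_eq]
    exact fun k x hx => sha_all hn hc h3 hQ k x hx

theorem data {n : ℕ} (h : FundNeg n) (hc : n % 3 ≠ 1 ∧ (n % 8 = 3 ∨ n % 8 = 0)) :
    Data (E24 n) (Go n) := by
  rcases h with ⟨hs, h4⟩ | ⟨k, rfl, hs, h4⟩
  · have ho : n % 2 = 1 := by omega
    have em : m n = -(n : ℤ) := if_pos ho
    have eE : E24 n = tw n := by
      unfold E24 tw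
      rw [em]
      congr 1 <;> ring
    have hg : Go n ↔ QQ n := by
      have e : Pool.Agent.N969.P15.Qc n ↔ Pool.Agent.N877.P24.Qc n := by
        rw [Pool.Agent.N373.P24.qc_iff hs.ne_zero, Pool.Agent.N875.X15.qc_P15 hs.ne_zero]
      constructor
      · exact fun h => ⟨fun _ => e.1 (h.1 ho), fun h0 => by omega⟩
      · exact fun h => ⟨fun _ => e.2 (h.1 ho), fun h0 => by omega⟩
    rw [propext hg, eE]
    exact data_tw hs (by omega) hc.1
  · have em : m (4 * k) = -(k : ℤ) := by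
      unfold m
      rw [if_neg (by omega), Nat.mul_div_cancel_left k (by norm_num)]
    have eE : E24 (4 * k) = tw k := by
      unfold E24 tw
      rw [em]
      congr 1 <;> ring
    have hk2 : k % 4 = 2 := by omega
    have hg : Go (4 * k) ↔ QQ k := by
      constructor
      · exact fun h => ⟨fun h0 => by omega, fun _ => h.2 (by omega)⟩
      · exact fun h => ⟨fun h0 => by omega, fun _ => h.2 (by omega)⟩
    rw [propext hg, eE]
    exact data_tw hs (Or.inr hk2) (by omega)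

end Pool.Agent.N856.JM.P.C24
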