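import Pool.Agent.N875.X15.AsmB
import Pool.Agent.N875.X15.ClE
import Pool.Agent.N969.P15.QF
import Pool.Agent.N916.AM.Fd

/-!
# JM: twists of modular curves: the definitions and the common part of the proofs

After `TwoPartTwistsX15Neg` (helper875), `TwoPartTwistsX21Neg` (helper637), `TwoPartTwistsX24` and
`TwoPartProducts` (helper877).
-/

set_option autoImplicit false
set_option linter.style.haveILetI false

open WeierstrassCurve MeasureTheory Filter Topology Finset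

namespace Pool.Agent.N856.JM.P

open scoped Classical

open Pool.Agent.TH841.SH.D (Sha)

/-- The curve given by the equation of `W` over the ring `R`. -/
abbrev base (W : WeierstrassCurve ℤ) (R : Type) [CommRing R] : WeierstrassCurve R :=
  W.map (Int.castRingHom R)

/-- `W` is a global minimal equation: `Δ ≠ 0` and `|Δ|` is minimal among the integral equations of the
same curve over `ℚ`. -/
def Minimal (W : WeierstrassCurve ℤ) : Prop :=
  W.Δ ≠ 0 ∧ ∀ (W' : WeierstrassCurve ℤ) (C : VariableChange ℚ), C • base W ℚ = base W' ℚ →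
    |W.Δ| ≤ |W'.Δ|

/-- The number of the affine points modulo `p`. -/
noncomputable def pts (W : WeierstrassCurve ℤ) (p : ℕ) : ℕ :=
  Nat.card {P : ZMod p × ZMod p // (base W (ZMod p)).toAffine.Equation P.1 P.2}

/-- `a_p = p + 1 - #W(𝔽_p)`, the points counted with the point at infinity. -/
noncomputable def a (W : WeierstrassCurve ℤ) (p : ℕ) : ℤ := p - pts W p

/-- The point `P` of `W` over `ℚ_p` reduces to a singular point of the curve modulo `p`: the coordinates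
are integral and both partial derivatives of `y² + a₁ x y + a₃ y - x³ - a₂ x² - a₄ x - a₆` are in the
maximal ideal. -/
def SingularReduction (W : WeierstrassCurve ℤ) (p : ℕ) [Fact p.Prime]
    (P : (base W ℚ_[p]).toAffine.Point) : Prop :=
  ∃ x y h, P = Affine.Point.some x y h ∧ ‖x‖ ≤ 1 ∧ ‖y‖ ≤ 1 ∧
    ‖W.a₁ * y - (3 * x ^ 2 + 2 * W.a₂ * x + W.a₄)‖ < 1 ∧ ‖2 * y + W.a₁ * x + W.a₃‖ < 1

/-- `c p` is the Tamagawa number `[W(ℚ_p) : W⁰(ℚ_p)]` for all primes `p`, where `W⁰(ℚ_p)` is the subgroup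
of the points which do not have singular reduction; it is `1` if `p` does not divide `Δ`. -/
def IsTamagawa (W : WeierstrassCurve ℤ) (c : ℕ → ℕ) : Prop :=
  ∀ (p : ℕ) [Fact p.Prime], (∃ H : AddSubgroup (base W ℚ_[p]).toAffine.Point,
    (∀ P, P ∈ H ↔ ¬ SingularReduction W p P) ∧ H.index = c p) ∧ (¬ (p : ℤ) ∣ W.Δ → c p = 1)

/-- The product of the Tamagawa numbers. -/
noncomputable def Tam (W : WeierstrassCurve ℤ) (c : ℕ → ℕ) : ℕ := ∏ p ∈ W.Δ.natAbs.primeFactors, c p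

/-- `4 x³ + b₂ x² + 2 b₄ x + b₆ = (2 y + a₁ x + a₃)²`. -/
def cubic (W : WeierstrassCurve ℤ) (x : ℝ) : ℝ := 4 * x ^ 3 + W.b₂ * x ^ 2 + 2 * W.b₄ * x + W.b₆

/-- `Ω = ∫_{W(ℝ)} |ω|` with `ω = dx / (2 y + a₁ x + a₃)`, as an integral over `x`: two real points lie
over each `x` with `cubic x > 0`. -/
noncomputable def Omega (W : WeierstrassCurve ℤ) : ℝ :=
  2 * ∫ x in {x : ℝ | 0 < cubic W x}, 1 / √(cubic W x)

/-- `-n` is a fundamental discriminant. -/
def FundNeg (n : ℕ) : Prop := (Squarefree n ∧ n % 4 = 3) ∨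
  ∃ m : ℕ, n = 4 * m ∧ Squarefree m ∧ (m % 4 = 1 ∨ m % 4 = 2)

/-- The squarefree integer `m n` with `ℚ(√(m n)) = ℚ(√-n)`. -/
def m (n : ℕ) : ℤ := if n % 2 = 1 then -(n : ℤ) else -((n / 4 : ℕ) : ℤ)

/-- The quadratic twist of `X_0(15)` by `-n`: `y² + x y = x³ - ((7 m + 1)/4) x² - 9 m² x` if `n` is odd,
`y² = x (x + 9 m) (x - 16 m)` if `n` is even. -/
def E15 (n : ℕ) : WeierstrassCurve ℤ :=
  if n % 2 = 1 then ⟨1, -((7 * m n + 1) / 4), 0, -(9 * (m n) ^ 2), 0⟩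
  else ⟨0, -7 * m n, 0, -144 * (m n) ^ 2, 0⟩

/-- The quadratic twist of `X_0(21)` by `-n`: `y² + x y = x³ + ((25 m - 1)/4) x² + 9 m² x` if `n` is odd,
`y² = x (x - 9 m) (x + 7 m)` if `n` is even. -/
def E21 (n : ℕ) : WeierstrassCurve ℤ :=
  if n % 2 = 1 then ⟨1, (25 * m n - 1) / 4, 0, 9 * (m n) ^ 2, 0⟩
  else ⟨0, -2 * m n, 0, -63 * (m n) ^ 2, 0⟩

/-- The quadratic twist of `X_0(24)` by `-n`: `y² = x (x - m) (x + 3 m)`. -/
def E24 (n : ℕ) : WeierstrassCurve ℤ := ⟨0, 2 * m n, 0, -3 * (m n) ^ 2, 0⟩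

/-- one elliptic curve -/
def Data (W : WeierstrassCurve ℤ) (Q : Prop) : Prop :=
  Minimal W ∧ (∃ (L : ℂ → ℂ) (c : ℕ → ℕ) (w : ℚ) (y : ℤ),
    (Differentiable ℂ L ∧ ∀ s : ℂ, 3 / 2 < s.re →
      HasProd (fun p : Nat.Primes => (1 - (a W p : ℂ) * ((p : ℕ) : ℂ) ^ (-s) +
      (if ((p : ℕ) : ℤ) ∣ W.Δ then 0 else ((p : ℕ) : ℂ) ^ (1 - 2 * s)))⁻¹) (L s)) ∧
    IsTamagawa W c ∧ 0 < Tam W c ∧
    0 < Nat.card (AddCommGroup.torsion (base W ℚ).toAffine.Point) ∧ 0 < Omega W ∧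
    w ≠ 0 ∧ padicValRat 2 w = 0 ∧
    L 1 * (Nat.card (AddCommGroup.torsion (base W ℚ).toAffine.Point) : ℂ) ^ 2 =
      ((w * (y : ℚ) ^ 2 : ℚ) : ℂ) * ((Omega W : ℝ) * (Tam W c : ℂ)) ∧ (Odd y ↔ Q)) ∧
  ((Finite (base W ℚ).toAffine.Point ∧ ∀ x : Sha (base W ℚ), 2 • x = 0 → x = 0) ↔ Q) ∧
  (Q → ∀ (k : ℕ) (x : Sha (base W ℚ)), 2 ^ k • x = 0 → x = 0)

/-- The ideal class group of `ℚ(√-n)` has no element of order four. -/
def NoOrderFour (n : ℕ) : Prop :=
  ∀ (K : Type) [Field K] [NumberField K], Module.finrank ℚ K = 2 → (∃ s : K, s ^ 2 = (m n : K)) →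
    ∀ c : ClassGroup (NumberField.RingOfIntegers K), orderOf c ≠ 4

open Pool.Agent.N875.X15 (Fin2 fin2_pow qc_P15 qc_iff_class qe_iff_class)
open Pool.Agent.N916.TE (FD Go)

lemma omega_eq (W : WeierstrassCurve ℤ) : Omega W = Pool.Agent.Y700.Omega W := by
  unfold Omega Pool.Agent.Y700.Omega
  rw [← integral_const_mul]
  show ∫ x in {x : ℝ | 0 < Pool.Agent.Y700.psi W x}, 2 * (1 / √(Pool.Agent.Y700.psi W x)) = _
  congr 1
  funext x
  rw [mul_one_div]

/-- the Tamagawa numbers -/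
noncomputable def cT (W : WeierstrassCurve ℤ) (p : ℕ) : ℕ :=
  if h : p.Prime then (haveI := Fact.mk h; Pool.Agent.Y700.tam W p) else 1

lemma isTam (W : WeierstrassCurve ℤ) : IsTamagawa W (cT W) := by
  intro p hp
  have hc : cT W p = Pool.Agent.Y700.tam W p := by
    unfold cT
    rw [dif_pos hp.out]
  refine ⟨⟨Pool.Agent.Y700.E0 W p, fun P => ?_, by rw [hc]; rfl⟩, fun h => ?_⟩
  · rw [Pool.Agent.Y809.BSD14.t_E0 W p P]
    constructor
    · rintro h ⟨x, y, h1, rfl, h2⟩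
      exact h x y h1 rfl h2
    · intro h x y h1 h2 h3
      exact h ⟨x, y, h1, h2, h3⟩
  · rw [hc]
    exact Pool.Agent.Y809.BSD14.t_TGOOD W p h

lemma tam_eq (W : WeierstrassCurve ℤ) : Tam W (cT W) = Pool.Agent.Y700.tamProd W := rfl

lemma two_iff {A : Type} [AddCommGroup A] : (∀ x : A, 2 • x = 0 → x = 0) ↔
    ∀ x : A, x + x = 0 → x = 0 := by
  refine forall_congr' fun x => ?_
  rw [two_nsmul]

/-- the common part of the proof -/
theorem data_of {W : WeierstrassCurve ℤ} {Q : Prop} (hmin : Minimal W)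
    {N : ℕ} (hN : 0 < N) (htam : Tam W (cT W) = N)
    (htor : ∃ t : ℕ, Odd t ∧ Nat.card (AddCommGroup.torsion (base W ℚ).toAffine.Point) = 4 * t)
    (hΩ : 0 < Pool.Agent.Y700.Omega W) {f : ℂ → ℂ} {w : ℚ} {y : ℤ}
    (hf : Differentiable ℂ f ∧ ∀ s : ℂ, 3 / 2 < s.re →
      HasProd (fun p : Nat.Primes => (1 - (a W p : ℂ) * ((p : ℕ) : ℂ) ^ (-s) +
      (if ((p : ℕ) : ℤ) ∣ W.Δ then 0 else ((p : ℕ) : ℂ) ^ (1 - 2 * s)))⁻¹) (f s))
    (hw0 : w ≠ 0) (hw : padicValRat 2 w = 0) (hyQ : Odd y ↔ Q)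
    (hval : f 1 = (((w : ℝ) * (y : ℝ) ^ 2 * (Pool.Agent.Y700.Omega W *
      Pool.Agent.Y700.tamProd W /
      (Nat.card (AddCommGroup.torsion (base W ℚ).toAffine.Point) : ℝ) ^ 2) : ℝ) : ℂ))
    (hfin : Fin2 (base W ℚ) ↔ Q) : Data W Q := by
  have hsel : (Finite (base W ℚ).toAffine.Point ∧ ∀ x : Sha (base W ℚ), 2 • x = 0 → x = 0) ↔ Q :=
    (and_congr Iff.rfl two_iff).trans hfin
  have hΩ' : 0 < Omega W := by
    rw [omega_eq]
    exact hΩ
  have hT : 0 < Tam W (cT W) := by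
    rw [htam]
    exact hN
  have hto : 0 < Nat.card (AddCommGroup.torsion (base W ℚ).toAffine.Point) := by
    obtain ⟨t, ht, ht'⟩ := htor
    rw [ht']
    exact Nat.mul_pos (by norm_num) ht.pos
  refine ⟨hmin, ⟨f, cT _, w, y, hf, isTam _, hT, hto, hΩ', hw0, hw, ?_, hyQ⟩, hsel,
    fun hQ k x hx => fin2_pow (hfin.2 hQ) k x hx⟩
  have e2 : Pool.Agent.Y700.tamProd W = Tam W (cT W) := rfl
  rw [hval, ← omega_eq, e2]
  have h3 : ((Nat.card (AddCommGroup.torsion (base W ℚ).toAffine.Point) : ℕ) : ℂ) ≠ 0 := by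
    exact_mod_cast hto.ne'
  push_cast
  field_simp

lemma order_iff {G : Type} [Group G] : (∀ c : G, orderOf c ≠ 4) ↔ ∀ c : G, c ^ 4 = 1 → c ^ 2 = 1 := by
  constructor
  · intro h c h4
    by_contra h2
    refine h c ?_
    have := orderOf_eq_prime_pow (x := c) (p := 2) (n := 1) (by simpa using h2)
      (by norm_num; exact h4)
    simpa using this
  · intro h c h4
    have h1 : c ^ 4 = 1 := by rw [← h4]; exact pow_orderOf_eq_one c
    have h2 := orderOf_dvd_of_pow_eq_one (h c h1)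
    rw [h4] at h2
    omega

theorem class_of {n : ℕ} (h0 : m n < 0) {Q : Prop}
    (key : ∀ (K : Type) [Field K] [NumberField K], Module.finrank ℚ K = 2 →
      (∃ s : K, s ^ 2 = (m n : K)) →
      ((∀ c : ClassGroup (NumberField.RingOfIntegers K), c ^ 4 = 1 → c ^ 2 = 1) ↔ Q)) :
    NoOrderFour n ↔ Q := by
  constructor
  · intro h8
    obtain ⟨k, hk⟩ : ∃ k : ℕ, m n = -(k : ℤ) := ⟨(m n).natAbs, by omega⟩
    obtain ⟨K, i1, i2, h6, h7⟩ := Pool.Agent.N969.P15.exists_qf (n := k) (by omega)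
    have h9 : ∃ s : K, s ^ 2 = (m n : K) := by
      obtain ⟨s, hs⟩ := h7
      refine ⟨s, ?_⟩
      rw [hs, hk]
      push_cast
      rfl
    exact (key K h6 h9).1 (order_iff.1 (h8 K h6 h9))
  · intro h8 K i1 i2 h6 h7
    exact order_iff.2 ((key K h6 h7).2 h8)

/-- the criterion in terms of the class group, for all the negative fundamental discriminants
different from `-4` -/
theorem class_iff {n : ℕ} (h : FundNeg n) (h4 : n ≠ 4) : NoOrderFour n ↔ Go n := by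
  rcases h with ⟨hs, h3⟩ | hE
  · have em : m n = -(n : ℤ) := if_pos (by omega)
    have h0 : 0 < n := Nat.pos_of_ne_zero hs.ne_zero
    have ho : n % 2 = 1 := by omega
    have hg : Go n ↔ Pool.Agent.N969.P15.Qc n :=
      ⟨fun h => h.1 ho, fun h => ⟨fun _ => h, fun h2 => by omega⟩⟩
    rw [hg]
    refine class_of (by rw [em]; omega) fun K _ _ h6 h7 => ?_
    rw [em] at h7
    have h9 : ∃ s : K, s ^ 2 = -(n : K) := by
      obtain ⟨s, hs'⟩ := h7
      refine ⟨s, ?_⟩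
      rw [hs']
      push_cast
      rfl
    rw [qc_iff_class hs h3 K h6 h9, qc_P15 h0.ne']
  · have hn2 : ¬ n % 2 = 1 := by
      obtain ⟨k, rfl, -⟩ := hE
      omega
    have h04 : 0 < n / 4 := by
      obtain ⟨k, rfl, hk, -⟩ := hE
      have := Nat.pos_of_ne_zero hk.ne_zero
      omega
    have em : m n = -((n / 4 : ℕ) : ℤ) := if_neg hn2
    have hg : Go n ↔ Pool.Agent.N969.P15.Qe n :=
      ⟨fun h => h.2 (by omega), fun h => ⟨fun h2 => absurd h2 hn2, fun _ => h⟩⟩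
    rw [hg]
    refine class_of (by rw [em]; omega) fun K _ _ h6 h7 => ?_
    rw [em] at h7
    have h9 : ∃ s : K, s ^ 2 = -((n / 4 : ℕ) : K) := by
      obtain ⟨s, hs⟩ := h7
      refine ⟨s, ?_⟩
      rw [hs, Int.cast_neg, Int.cast_natCast]
    exact qe_iff_class hE h4 K h6 h9

end Pool.Agent.N856.JM.P
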