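import Pool.Agent.N856.JM.P.C15
import Pool.Agent.N856.JM.P.C21
import Pool.Agent.N856.JM.P.C24

/-!
# JM: products of elliptic curves, each with its own criterion (after `TwoPartProducts`, helper877)
-/

set_option autoImplicit false
set_option linter.style.haveILetI false

open WeierstrassCurve MeasureTheory Filter Topology Finset

namespace Pool.Agent.N856.JM.P

open scoped Classical

open Pool.Agent.TH841.SH.D (Sha)

section
variable {d : ℕ} (A : Fin d → WeierstrassCurve ℤ)

/-- The group of the rational points of the abelian variety `A = ∏ A i`. -/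
abbrev Points : Type := ∀ i, (base (A i) ℚ).toAffine.Point

/-- The Tate-Shafarevich group of the abelian variety `A = ∏ A i`. -/
abbrev ShaA : Type := ∀ i, Sha (base (A i) ℚ)

/-- `L` is the L-function of the product of the minimal equations `A i`: it is entire, and for
`Re s > 3/2` it is given by the Euler product with the factors
`∏ i, (1 - a_p(A i) p^(-s) + p^(1 - 2 s))⁻¹`, where the last term is absent if `p` divides the
discriminant of `A i`. -/
def IsL (L : ℂ → ℂ) : Prop :=
  Differentiable ℂ L ∧ ∀ s : ℂ, 3 / 2 < s.re →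
    HasProd (fun p : Nat.Primes => ∏ i, (1 - (a (A i) p : ℂ) * ((p : ℕ) : ℂ) ^ (-s) +
      (if ((p : ℕ) : ℤ) ∣ (A i).Δ then 0 else ((p : ℕ) : ℂ) ^ (1 - 2 * s)))⁻¹) (L s)

/-- The order of the torsion subgroup of `A(ℚ)`; the dual of `A` is isomorphic to `A`. -/
noncomputable def torsOrder : ℕ := Nat.card (AddCommGroup.torsion (Points A))

/-- `V_∞ = ∫_{A(ℝ)} |ω|`, `ω` the product of the invariant differentials of the minimal equations. -/
noncomputable def Vinf : ℝ := ∏ i, Omega (A i)

/-- The product of the Tamagawa numbers of `A`. -/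
noncomputable def TamA (c : Fin d → ℕ → ℕ) : ℕ := ∏ i, Tam (A i) (c i)

/-- The order of the Tate-Shafarevich group predicted by the formula in rank zero. -/
noncomputable def anOrder (l : ℂ) (c : Fin d → ℕ → ℕ) : ℂ :=
  l * (torsOrder A : ℂ) ^ 2 / ((Vinf A : ℝ) * (TamA A c : ℂ))

/-- `A(ℚ)` is finite and `Ш(A/ℚ)` has no element of order two. -/
def RankZeroShaTwo : Prop := Finite (Points A) ∧ ∀ x : ShaA A, 2 • x = 0 → x = 0

/-- The 2-part of the formula for `A`, in the case that the predicted order of `Ш` is a unit at two: the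
equations are minimal, `A(ℚ)` is finite, the 2-primary part of `Ш(A/ℚ)` is zero, `L(A, s)` is entire,
`L(A, 1) ≠ 0`, and the predicted order of `Ш` is a rational number which is a unit at two. -/
def TwoPart : Prop :=
  (∀ i, Minimal (A i)) ∧ Finite (Points A) ∧ (∀ (k : ℕ) (x : ShaA A), 2 ^ k • x = 0 → x = 0) ∧
  ∃ (L : ℂ → ℂ) (c : Fin d → ℕ → ℕ) (z : ℚ), IsL A L ∧ L 1 ≠ 0 ∧ (∀ i, IsTamagawa (A i) (c i)) ∧
    0 < TamA A c ∧ 0 < Vinf A ∧ 0 < torsOrder A ∧ anOrder A (L 1) c = z ∧ z ≠ 0 ∧
    padicValRat 2 z = 0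

/-- The statement for the abelian variety `A` and the condition `Q`. -/
def Formula (Q : Prop) : Prop :=
  (∀ i, Minimal (A i)) ∧
  (∃ (L : ℂ → ℂ) (c : Fin d → ℕ → ℕ) (w : ℚ) (y : ℤ), IsL A L ∧ (∀ i, IsTamagawa (A i) (c i)) ∧
    0 < TamA A c ∧ 0 < torsOrder A ∧ 0 < Vinf A ∧
    w ≠ 0 ∧ padicValRat 2 w = 0 ∧ anOrder A (L 1) c = ((w * (y : ℚ) ^ 2 : ℚ) : ℂ) ∧
    (Odd y ↔ RankZeroShaTwo A)) ∧
  (RankZeroShaTwo A ↔ Q) ∧ (RankZeroShaTwo A ↔ TwoPart A)

end

/-- the torsion of a finite product -/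
theorem card_torsion_pi {d : ℕ} (G : Fin d → Type) [∀ i, AddCommGroup (G i)] :
    Nat.card (AddCommGroup.torsion (∀ i, G i)) = ∏ i, Nat.card (AddCommGroup.torsion (G i)) := by
  rw [← Nat.card_pi]
  refine Nat.card_congr ⟨fun x i => ⟨x.1 i, ?_⟩, fun x => ⟨fun i => (x i).1, ?_⟩, fun x => rfl,
    fun x => rfl⟩
  · have h := x.2
    rw [AddCommGroup.mem_torsion, isOfFinAddOrder_iff_nsmul_eq_zero] at h ⊢
    obtain ⟨n, hn, h⟩ := h
    exact ⟨n, hn, by rw [← Pi.smul_apply, h]; rfl⟩
  · have h : ∀ i, IsOfFinAddOrder (x i).1 := fun i => (x i).2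
    rw [AddCommGroup.mem_torsion, isOfFinAddOrder_iff_nsmul_eq_zero]
    refine ⟨∏ i, addOrderOf (x i).1, Finset.prod_pos fun i _ => (h i).addOrderOf_pos, ?_⟩
    funext i
    rw [Pi.smul_apply, Pi.zero_apply]
    obtain ⟨m, hm⟩ := Finset.dvd_prod_of_mem (fun i => addOrderOf (x i).1) (Finset.mem_univ i)
    show (∏ i, addOrderOf (x i).1) • (x i).1 = 0
    rw [hm, mul_comm, mul_smul, addOrderOf_nsmul_eq_zero, smul_zero]

theorem formula_of {d : ℕ} {Q : Fin d → Prop} {A : Fin d → WeierstrassCurve ℤ}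
    (h : ∀ i, Data (A i) (Q i)) : Formula A (∀ i, Q i) := by
  have hmin := fun i => (h i).1
  have hr := fun i => (h i).2.2.1
  have hs := fun i => (h i).2.2.2
  choose L c w y hL hc hT ht hΩ hw0 hw hv hy using fun i => (h i).2.1
  have hto : torsOrder A = ∏ i, Nat.card (AddCommGroup.torsion (base (A i) ℚ).toAffine.Point) :=
    card_torsion_pi _
  have htp : 0 < torsOrder A := by
    rw [hto]
    exact Finset.prod_pos fun i _ => ht i
  have hVp : 0 < Vinf A := Finset.prod_pos fun i _ => hΩ i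
  have hTp : 0 < TamA A c := Finset.prod_pos fun i _ => hT i
  have hRank : RankZeroShaTwo A ↔ ∀ i, Q i := by
    constructor
    · rintro ⟨h1, h2⟩ i0
      refine (hr i0).1 ⟨?_, fun x hx => ?_⟩
      · exact Finite.of_injective (fun P => (Pi.single i0 P : Points A))
          (Pi.single_injective (M := fun i => (base (A i) ℚ).toAffine.Point) i0)
      · have h3 := h2 (Pi.single i0 x) (by
          rw [← Pi.single_smul, hx, Pi.single_zero])
        have h4 := congrFun h3 i0
        rwa [Pi.single_eq_same] at h4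
    · intro h1
      have h2 := fun i => (hr i).2 (h1 i)
      refine ⟨?_, fun x hx => ?_⟩
      · have := fun i => (h2 i).1
        exact Pi.finite
      · funext i
        exact (h2 i).2 (x i) (by rw [← Pi.smul_apply, hx]; rfl)
  have hIsL : IsL A (fun s => ∏ i, L i s) := by
    refine ⟨?_, fun s hs' => ?_⟩
    · have h5 : ∀ i ∈ (Finset.univ : Finset (Fin d)), Differentiable ℂ (L i) := fun i _ => (hL i).1
      exact Differentiable.fun_finset_prod h5
    · exact hasProd_prod fun i _ => (hL i).2 s hs'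
  set W : ℚ := ∏ i, w i with hW
  set Y : ℤ := ∏ i, y i with hY
  have hW0 : W ≠ 0 := Finset.prod_ne_zero_iff.2 fun i _ => hw0 i
  have hfact : Fact (Nat.Prime 2) := ⟨Nat.prime_two⟩
  have hWv : padicValRat 2 W = 0 := by
    have : ∀ s : Finset (Fin d), padicValRat 2 (∏ i ∈ s, w i) = 0 := by
      intro s
      induction s using Finset.induction_on with
      | empty => simp
      | insert j s hj ih =>
        rw [Finset.prod_insert hj, padicValRat.mul (hw0 j)
          (Finset.prod_ne_zero_iff.2 fun i _ => hw0 i), ih, hw j, add_zero]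
    exact this _
  have hYo : Odd Y ↔ ∀ i, Q i := by
    have h6 : Odd Y ↔ ∀ i, Odd (y i) := by
      have : ∀ s : Finset (Fin d), Odd (∏ i ∈ s, y i) ↔ ∀ i ∈ s, Odd (y i) := by
        intro s
        induction s using Finset.induction_on with
        | empty => simp
        | insert j s hj ih =>
          rw [Finset.prod_insert hj, Int.odd_mul, ih]
          simp
      rw [hY, this]
      simp
    rw [h6]
    exact forall_congr' hy
  have hVC : ((Vinf A : ℝ) : ℂ) ≠ 0 := by exact_mod_cast hVp.ne'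
  have hTC : ((TamA A c : ℕ) : ℂ) ≠ 0 := by exact_mod_cast hTp.ne'
  have han : anOrder A (∏ i, L i 1) c = ((W * (Y : ℚ) ^ 2 : ℚ) : ℂ) := by
    unfold anOrder
    rw [div_eq_iff (mul_ne_zero hVC hTC), hto]
    unfold Vinf TamA
    push_cast
    rw [hW, hY]
    push_cast
    rw [← Finset.prod_pow, ← Finset.prod_pow, ← Finset.prod_mul_distrib, ← Finset.prod_mul_distrib,
      ← Finset.prod_mul_distrib, ← Finset.prod_mul_distrib]
    refine Finset.prod_congr rfl fun i _ => ?_
    have h7 := hv i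
    push_cast at h7
    exact h7
  refine ⟨hmin, ⟨fun s => ∏ i, L i s, c, W, Y, hIsL, hc, hTp, htp, hVp, hW0, hWv, han,
    hYo.trans hRank.symm⟩, hRank, fun hR => ?_, fun hP => ?_⟩
  · have hq := hRank.1 hR
    have hY1 := hYo.2 hq
    have hY0 : Y ≠ 0 := by
      rintro h0
      rw [h0] at hY1
      exact absurd hY1 (by decide)
    have hYq : (Y : ℚ) ≠ 0 := by exact_mod_cast hY0
    have hz : W * (Y : ℚ) ^ 2 ≠ 0 := mul_ne_zero hW0 (pow_ne_zero 2 hYq)
    refine ⟨hmin, hR.1, fun k x hx => ?_, fun s => ∏ i, L i s, c, W * (Y : ℚ) ^ 2, hIsL, ?_, hc,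
      hTp, hVp, htp, han, hz, ?_⟩
    · funext i
      exact hs i (hq i) k (x i) (by rw [← Pi.smul_apply, hx]; rfl)
    · intro h0
      have h0' : ∏ i, L i 1 = 0 := h0
      rw [h0'] at han
      unfold anOrder at han
      rw [zero_mul, zero_div] at han
      exact hz (by exact_mod_cast han.symm)
    · have hv2 : padicValRat 2 (Y : ℚ) = 0 := by
        rw [padicValRat.of_int]
        have : padicValInt 2 Y = 0 := by
          refine padicValInt.eq_zero_of_not_dvd ?_
          intro hd
          have h5 := Int.odd_iff.1 hY1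
          omega
        rw [this]
        rfl
      rw [padicValRat.mul hW0 (pow_ne_zero 2 hYq), padicValRat.pow, hWv, hv2]
      simp
  · refine ⟨hP.2.1, fun x hx => hP.2.2.1 1 x ?_⟩
    rwa [pow_one]

end Pool.Agent.N856.JM.P
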