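import Pool.Agent.N856.JM.P.Prod
import Pool.Agent.N856.JM.Law
import Pool.Agent.N856.JT.Pat

/-!
# JM: the joint law for the products of twists of `X_0(15)`, `X_0(21)`, `X_0(24)`
-/

set_option autoImplicit false
set_option linter.style.haveILetI false

open WeierstrassCurve MeasureTheory Filter Topology Finset

namespace Pool.Agent.N856.JM.P

open scoped Classical

open Pool.Agent.TH841.SH.D (Sha)

/-- The quadratic twist of `X_0(l)` by `-n`, for `l = 15`, `21`, `24`. -/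
def E (l n : ℕ) : WeierstrassCurve ℤ := if l = 15 then E15 n else if l = 21 then E21 n else E24 n

/-- The twist of `X_0(l)` by `-n` is allowed: `-n` is a fundamental discriminant and, in `ℚ(√-n)`,
* `l = 15`, `3` is not inert and `5` is not split, or
* `l = 21`, `3` is not split and `7` is not inert, or
* `l = 24`, `3` is not inert, and `2` is inert or `8 ∣ n`. -/
def Allowed (l n : ℕ) : Prop := FundNeg n ∧
  ((l = 15 ∧ n % 3 ≠ 1 ∧ (n % 5 = 0 ∨ n % 5 = 2 ∨ n % 5 = 3)) ∨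
    (l = 21 ∧ n % 3 ≠ 2 ∧ (n % 7 = 0 ∨ n % 7 = 3 ∨ n % 7 = 5 ∨ n % 7 = 6)) ∨
    (l = 24 ∧ n % 3 ≠ 1 ∧ (n % 8 = 3 ∨ n % 8 = 0)))

/-- The family for the set `D` of pairs `(l, e)` and the class of `b` modulo `M`: `n` is squarefree,
`n ≡ b` modulo `M`, and for all `(l, e)` in `D` the integer `n` is prime to `e`, `-n e` is an odd
fundamental discriminant and the twist of `X_0(l)` by `-n e` is allowed. -/
def Fam (D : Finset (ℕ × ℕ)) (M b n : ℕ) : Prop :=
  Squarefree n ∧ n % M = b % M ∧ ∀ x ∈ D, n.Coprime x.2 ∧ (n * x.2) % 4 = 3 ∧ Allowed x.1 (n * x.2)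

/-- `n` has the pattern `V`: for all the products `A` of all dimensions of the twists of `X_0(l)` by
`-n e`, `(l, e)` in `D`, the 2-part of the formula, with a predicted order of `Ш` which is a unit at two,
holds if and only if all the `e` which occur in `A` belong to `V`. -/
def Pattern (D : Finset (ℕ × ℕ)) (V : Finset ℕ) (n : ℕ) : Prop :=
  ∀ (d : ℕ) (x : Fin d → ℕ × ℕ), (∀ i, x i ∈ D) →
    (TwoPart (fun i => E (x i).1 (n * (x i).2)) ↔ ∀ i, (x i).2 ∈ V)

/-- `∏_{i ≥ 1} (1 - 2^{-i}) = 0.2888…` -/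
noncomputable def eta : ℝ := ∏' i : ℕ, (1 - (1 / 2 : ℝ) ^ (i + 1))

/-- the number of the `n ≤ X` with the property `P` -/
noncomputable def count (P : ℕ → Prop) (X : ℕ) : ℕ := ((Icc 1 X).filter fun n => P n).card

/-- among the numbers with the property `P`, those with the property `Q` have natural density `δ` -/
def HasDensity (P Q : ℕ → Prop) (δ : ℝ) : Prop :=
  Tendsto (fun X : ℕ => (count (fun n => P n ∧ Q n) X : ℝ) / (count P X : ℝ)) atTop (𝓝 δ)

open Pool.Agent.N916.TE (Go)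
open Pool.Agent.N969.P15 (Qc)

lemma go_odd {n : ℕ} (h : n % 4 = 3) : Go n ↔ Qc n :=
  ⟨fun h1 => h1.1 (by omega), fun h1 => ⟨fun _ => h1, fun h2 => by omega⟩⟩

theorem data_all {l n : ℕ} (h : Allowed l n) : Data (E l n) (Go n) := by
  obtain ⟨hF, ⟨rfl, h1, h2⟩ | ⟨rfl, h1, h2⟩ | ⟨rfl, h1, h2⟩⟩ := h
  · unfold E
    rw [if_pos rfl]
    exact C15.data hF ⟨h1, h2⟩
  · unfold E
    rw [if_neg (by norm_num), if_pos rfl]
    exact C21.data hF ⟨h1, h2⟩
  · unfold E
    rw [if_neg (by norm_num), if_neg (by norm_num)]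
    exact C24.data hF ⟨h1, h2⟩

theorem allowed_ne_four {l n : ℕ} (h : Allowed l n) : n ≠ 4 := by
  obtain ⟨-, ⟨-, h1, h2⟩ | ⟨-, h1, h2⟩ | ⟨-, h1, h2⟩⟩ := h <;> omega

/-- the first part -/
theorem part_one {d : ℕ} {l N : Fin d → ℕ} (h : ∀ i, Allowed (l i) (N i)) :
    Formula (fun i => E (l i) (N i)) (∀ i, NoOrderFour (N i)) := by
  have h1 := formula_of (A := fun i => E (l i) (N i)) (Q := fun i => Go (N i))
    fun i => data_all (h i)
  have h2 : (∀ i, NoOrderFour (N i)) ↔ ∀ i, Go (N i) :=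
    forall_congr' fun i => class_iff (h i).1 (allowed_ne_four (h i))
  rw [propext h2]
  exact h1

lemma sq_of_allowed {l N : ℕ} (h : Allowed l N) (h4 : N % 4 = 3) : Squarefree N := by
  rcases h.1 with h1 | ⟨k, rfl, -⟩
  · exact h1.1
  · omega

/-- the modulus -/
noncomputable def MM (D : Finset (ℕ × ℕ)) (M : ℕ) : ℕ := 840 * (M * ∏ x ∈ D, x.2)

lemma fam_mod {D : Finset (ℕ × ℕ)} {M b n n' : ℕ} (hn : Squarefree n)
    (h : n ≡ n' [MOD MM D M]) (hn' : Fam D M b n') : Fam D M b n := by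
  obtain ⟨h1, h2, h3⟩ := hn'
  have h840 : n ≡ n' [MOD 840] := Nat.ModEq.of_dvd (Dvd.intro _ rfl) h
  have hM : n ≡ n' [MOD M] :=
    Nat.ModEq.of_dvd (Dvd.dvd.mul_left (Dvd.intro _ rfl) 840) h
  refine ⟨hn, Eq.trans hM h2, fun x hx => ?_⟩
  obtain ⟨g1, g2, g3⟩ := h3 x hx
  have hxM : n ≡ n' [MOD x.2] := Nat.ModEq.of_dvd
    (Dvd.dvd.mul_left (Dvd.dvd.mul_left (dvd_prod_of_mem (fun x : ℕ × ℕ => x.2) hx) M) 840) h
  have c1 : n.Coprime x.2 := (Nat.ModEq.gcd_eq hxM).trans g1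
  have key : ∀ k, k ∣ 840 → (n * x.2) % k = (n' * x.2) % k := fun k hk =>
    (Nat.ModEq.of_dvd hk h840).mul_right x.2
  have c2 : (n * x.2) % 4 = 3 := by rw [key 4 (by norm_num)]; exact g2
  have hsq : Squarefree (n' * x.2) := sq_of_allowed g3 g2
  have hx2 : Squarefree x.2 := hsq.squarefree_of_dvd (Dvd.intro_left _ rfl)
  refine ⟨c1, c2, Or.inl ⟨(Nat.squarefree_mul c1).2 ⟨hn, hx2⟩, c2⟩, ?_⟩
  have e3 := key 3 (by norm_num)
  have e5 := key 5 (by norm_num)
  have e7 := key 7 (by norm_num)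
  have e8 := key 8 (by norm_num)
  rw [e3, e5, e7, e8]
  exact g3.2

/-- the law for the conditions -/
theorem law_W {D : Finset (ℕ × ℕ)} {M b n₀ : ℕ} (hM : 0 < M) (h0 : Fam D M b n₀) {W : Finset ℕ}
    (hW : W ⊆ D.image Prod.snd) (hne : W.Nonempty) :
    Pool.Agent.N856.JL.Av.HasDensity (Fam D M b) (fun n => ∀ c ∈ W, Qc (c * n))
      (Pool.Agent.N916.GB.eta ^ W.card) := by
  have hx : ∀ c ∈ W, ∃ x ∈ D, x.2 = c := fun c hc => mem_image.1 (hW hc)
  have hsq : ∀ x ∈ D, Squarefree x.2 := fun x hx =>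
    (sq_of_allowed (h0.2.2 x hx).2.2 (h0.2.2 x hx).2.1).squarefree_of_dvd (Dvd.intro_left _ rfl)
  have hMM : 0 < MM D M := Nat.mul_pos (by norm_num) (Nat.mul_pos hM
    (prod_pos fun x hx => Nat.pos_of_ne_zero (hsq x hx).ne_zero))
  set K : Finset ℕ := (range (MM D M)).filter fun a => ∃ n, Fam D M b n ∧ n % MM D M = a with hK
  have hmem : ∀ n, Squarefree n → (n % MM D M ∈ K ↔ Fam D M b n) := by
    intro n hn
    rw [hK, mem_filter, mem_range]
    constructor
    · rintro ⟨-, n', h1, h2⟩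
      exact fam_mod hn h2.symm h1
    · intro h
      exact ⟨Nat.mod_lt _ hMM, n, h, rfl⟩
  obtain ⟨c₀, hc₀⟩ := hne
  have h1 := law (I := W) (c := fun i => i.1) (fun i j h => Subtype.ext h)
    (fun i => by
      obtain ⟨x, hx1, hx2⟩ := hx i.1 i.2
      obtain ⟨g1, g2, g3⟩ := h0.2.2 x hx1
      have h5 := hsq x hx1
      rw [hx2] at g2 h5
      refine ⟨h5, ?_⟩
      by_contra h6
      have h7 : i.1 % 2 = 0 := by omega
      have h8 : (n₀ * i.1) % 2 = 0 := by rw [Nat.mul_mod, h7, mul_zero, Nat.zero_mod]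
      omega) hMM (K := K)
    (fun n hn hk => by
      obtain ⟨x, hx1, hx2⟩ := hx c₀ hc₀
      obtain ⟨g1, g2, g3⟩ := ((hmem n hn).1 hk).2.2 x hx1
      by_contra h6
      have h7 : n % 2 = 0 := by omega
      have h8 : (n * x.2) % 2 = 0 := by rw [Nat.mul_mod, h7, zero_mul, Nat.zero_mod]
      omega)
    (fun n hn hk i => by
      obtain ⟨x, hx1, hx2⟩ := hx i.1 i.2
      obtain ⟨g1, g2, g3⟩ := ((hmem n hn).1 hk).2.2 x hx1
      rw [hx2] at g1 g2
      exact ⟨g1, g2⟩) h0.1 ((hmem n₀ h0.1).2 h0)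
  rw [Fintype.card_coe] at h1
  unfold Pool.Agent.N856.JL.Av.HasDensity
  refine h1.congr fun X => congrArg₂ (fun a b : ℕ => (a : ℝ) / (b : ℝ)) ?_ ?_
  · unfold Pool.Agent.N856.JL.Av.count
    refine congrArg Finset.card ?_
    ext n
    simp only [Finset.mem_filter]
    refine and_congr_right fun _ => ?_
    constructor
    · rintro ⟨⟨g1, g2⟩, g3⟩
      exact ⟨(hmem n g1).1 g2, fun c hc => g3 ⟨c, hc⟩⟩
    · rintro ⟨g1, g2⟩
      exact ⟨⟨g1.1, (hmem n g1.1).2 g1⟩, fun i => g2 i.1 i.2⟩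
  · unfold Pool.Agent.N856.JL.Av.count
    refine congrArg Finset.card ?_
    ext n
    simp only [Finset.mem_filter]
    refine and_congr_right fun _ => ?_
    constructor
    · rintro ⟨g1, g2⟩
      exact (hmem n g1).1 g2
    · intro g1
      exact ⟨g1.1, (hmem n g1.1).2 g1⟩

/-- the second part -/
theorem part_two {D : Finset (ℕ × ℕ)} {M b n₀ : ℕ} (hM : 0 < M) (h0 : Fam D M b n₀) {V : Finset ℕ}
    (hV : V ⊆ D.image Prod.snd) :
    HasDensity (Fam D M b) (Pattern D V)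
      (eta ^ V.card * (1 - eta) ^ (D.image Prod.snd \ V).card) := by
  have h1 := Pool.Agent.N856.JT.pattern (P := Fam D M b) (m := n₀)
    (Nat.pos_of_ne_zero h0.1.ne_zero) h0 (R := fun c n => Qc (c * n)) (η := Pool.Agent.N916.GB.eta)
    (T := D.image Prod.snd) (fun W hW hne => law_W hM h0 hW hne) V hV
  have h2 : Pool.Agent.N856.JL.Av.HasDensity (Fam D M b) (Pattern D V)
      (Pool.Agent.N916.GB.eta ^ V.card * (1 - Pool.Agent.N916.GB.eta) ^
        (D.image Prod.snd \ V).card) := by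
    refine Pool.Agent.N856.JL.Av.dens_congr (fun _ => Iff.rfl) (fun n hn => ?_) h1
    have key : ∀ (d : ℕ) (x : Fin d → ℕ × ℕ), (∀ i, x i ∈ D) →
        (TwoPart (fun i => E (x i).1 (n * (x i).2)) ↔ ∀ i, Qc ((x i).2 * n)) := by
      intro d x hx
      have h3 := formula_of (A := fun i => E (x i).1 (n * (x i).2))
        (Q := fun i => Go (n * (x i).2)) fun i => data_all (hn.2.2 (x i) (hx i)).2.2
      rw [← h3.2.2.2, h3.2.2.1]
      refine forall_congr' fun i => ?_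
      rw [go_odd (hn.2.2 (x i) (hx i)).2.1, mul_comm]
    constructor
    · intro g d x hx
      rw [key d x hx]
      exact forall_congr' fun i => g _ (mem_image_of_mem _ (hx i))
    · intro g c hc
      obtain ⟨x, hx1, rfl⟩ := mem_image.1 hc
      have h4 := g 1 (fun _ => x) fun _ => hx1
      rw [key 1 (fun _ => x) fun _ => hx1] at h4
      exact ⟨fun h5 => h4.1 (fun _ => h5) 0, fun h5 => h4.2 (fun _ => h5) 0⟩
  exact h2

/-- the third part: prime multipliers for arbitrary levels -/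
theorem part_three {k : ℕ} {l : Fin k → ℕ} (hl : ∀ i, l i = 15 ∨ l i = 21 ∨ l i = 24) :
    ∃ e : Fin k → ℕ, Function.Injective e ∧ (∀ i, (e i).Prime) ∧
      Fam (univ.image fun i => (l i, e i)) 1 0 227 := by
  set r : ℕ → ℕ := fun i => if h : i < k then (if l ⟨i, h⟩ = 21 then 281 else 1) else 1 with hr
  have hrr : ∀ i, r i = 281 ∨ r i = 1 := by
    intro i
    rw [hr]
    dsimp only
    split_ifs <;> simp
  have hg : ∀ i N : ℕ, ∃ p, N < p ∧ p.Prime ∧ p % 840 = r i := by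
    intro i N
    have hu : ∀ a : ℕ, a.Coprime 840 → a < 840 → ∃ p, N < p ∧ p.Prime ∧ p % 840 = a := by
      intro a ha ha'
      obtain ⟨p, h1, h2, h3⟩ := Nat.forall_exists_prime_gt_and_modEq N (q := 840) (a := a)
        (by norm_num) ha
      exact ⟨p, h1, h2, by rw [← Nat.mod_eq_of_lt ha']; exact h3⟩
    rcases hrr i with h | h <;> rw [h]
    · exact hu 281 (by norm_num) (by norm_num)
    · exact hu 1 (by norm_num) (by norm_num)
  choose g hg1 hg2 hg3 using hg
  set f : ℕ → ℕ := fun n => Nat.rec (g 0 0) (fun i p => g (i + 1) p) n with hf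
  have hlt : ∀ i, f i < f (i + 1) := fun i => hg1 (i + 1) (f i)
  have hmono : StrictMono f := strictMono_nat_of_lt_succ hlt
  have hp : ∀ i, (f i).Prime := by
    intro i
    cases i with
    | zero => exact hg2 0 0
    | succ i => exact hg2 (i + 1) (f i)
  have hm : ∀ i, f i % 840 = r i := by
    intro i
    cases i with
    | zero => exact hg3 0 0
    | succ i => exact hg3 (i + 1) (f i)
  refine ⟨fun i => f i, fun i j h => Fin.ext (hmono.injective h), fun i => hp i,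
    (by norm_num : Nat.Prime 227).prime.squarefree, by norm_num [Nat.mod_one], fun x hx => ?_⟩
  obtain ⟨i, -, rfl⟩ := mem_image.1 hx
  show (227 : ℕ).Coprime (f i) ∧ (227 * f i) % 4 = 3 ∧ Allowed (l i) (227 * f i)
  have hmi := hm i
  have hri : r i = if l i = 21 then 281 else 1 := by
    rw [hr]
    dsimp only
    rw [dif_pos i.2]
  have hne : (227 : ℕ) ≠ f i := by
    intro h
    rw [← h] at hmi
    rcases hrr i with h2 | h2 <;> rw [h2] at hmi <;> norm_num at hmi
  have hc : (227 : ℕ).Coprime (f i) := (Nat.coprime_primes (by norm_num) (hp i)).2 hne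
  have h4 : (227 * f i) % 4 = 3 := by
    rcases hrr i with h | h <;> rw [h] at hmi <;> omega
  refine ⟨hc, h4, Or.inl ⟨(Nat.squarefree_mul hc).2
    ⟨(by norm_num : Nat.Prime 227).prime.squarefree, (hp i).prime.squarefree⟩, h4⟩, ?_⟩
  rw [hri] at hmi
  rcases hl i with h | h | h
  · rw [if_neg (by omega)] at hmi
    exact Or.inl ⟨h, by omega, by omega⟩
  · rw [if_pos h] at hmi
    exact Or.inr (Or.inl ⟨h, by omega, by omega⟩)
  · rw [if_neg (by omega)] at hmi
    exact Or.inr (Or.inr ⟨h, by omega, by omega⟩)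

/-- **Main theorem.** -/
theorem main :
    (∀ (d : ℕ) (l N : Fin d → ℕ), (∀ i, Allowed (l i) (N i)) →
      Formula (fun i => E (l i) (N i)) (∀ i, NoOrderFour (N i))) ∧
    (∀ (D : Finset (ℕ × ℕ)) (M b : ℕ), 0 < M → (∃ n, Fam D M b n) →
      ∀ V : Finset ℕ, V ⊆ D.image Prod.snd → HasDensity (Fam D M b) (Pattern D V)
        (eta ^ V.card * (1 - eta) ^ (D.image Prod.snd \ V).card)) ∧
    (∀ (k : ℕ) (l : Fin k → ℕ), (∀ i, l i = 15 ∨ l i = 21 ∨ l i = 24) →
      ∃ e : Fin k → ℕ, Function.Injective e ∧ (∀ i, (e i).Prime) ∧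
        Fam (univ.image fun i => (l i, e i)) 1 0 227) ∧
    0.2887 < eta ∧ eta < 0.2889 :=
  ⟨fun _ _ _ h => part_one h, fun _ _ _ hM ⟨_, h0⟩ _ hV => part_two hM h0 hV,
    fun _ _ hl => part_three hl, Pool.Agent.N916.GB.eta_bounds.1, Pool.Agent.N916.GB.eta_bounds.2⟩

end Pool.Agent.N856.JM.P
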