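import Pool.Agent.N856.JM.P.T1

/-!
# JM: Beilinson's statement for the products of twists of `X_0(15)`, `X_0(21)`, `X_0(24)`
-/

set_option autoImplicit false
set_option linter.style.haveILetI false

open WeierstrassCurve MeasureTheory Filter Topology Finset

namespace Pool.Agent.N856.JM.P

open scoped Classical

open Pool.Agent.TH841.SH.D (Sha)
open Pool.Agent.N916.TE (Go)
open Pool.Agent.N969.P15 (Qc)

section
variable {d : ℕ} (A : Fin d → WeierstrassCurve ℤ)

/-- `P` is a period matrix `Π` of `A = ∏ A i`, of `F¹ H¹_DR(A / ℝ) → H¹(A / ℝ, ℝ)` in bases of the rational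
structures. The invariant differentials `ω_j` of the curves `A j` are a basis of `F¹ H¹_DR(A / ℚ)`, and the
cycles `A j (ℝ)`, oriented such that `∫ ω_j > 0`, are a basis of `H₁(A(ℂ), ℚ)⁺`; in these bases the matrix is
the diagonal matrix of the real periods `Ω_j`. The other bases give `C * Π * B` with invertible rational
matrices `C` and `B`. -/
def IsPeriodMatrix (P : Matrix (Fin d) (Fin d) ℝ) : Prop :=
  ∃ B C : Matrix (Fin d) (Fin d) ℚ, B.det ≠ 0 ∧ C.det ≠ 0 ∧
    P = C.map (fun x : ℚ => (x : ℝ)) * Matrix.diagonal (fun j => Omega (A j)) *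
      B.map (fun x : ℚ => (x : ℝ))

/-- Beilinson's statements for `X = A`, `i = m = 1`, in the case of rank zero: `A(ℚ)` is finite, so that
`V¹ = CH¹(A)⁰ ⊗ ℚ = A^∨(ℚ) ⊗ ℚ = 0`; the L-function is entire, its order at `s = 1` is zero, and `L(A, 1)` is
a nonzero rational multiple of the determinant of the period matrix, which is not zero. -/
def Beilinson : Prop :=
  (∀ i, Minimal (A i)) ∧ Finite (Points A) ∧
  (∃ L : ℂ → ℂ, IsL A L ∧ analyticOrderAt L 1 = 0 ∧
    ∀ P, IsPeriodMatrix A P → ∃ r : ℚ, r ≠ 0 ∧ L 1 = r * (P.det : ℂ)) ∧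
  (∃ P, IsPeriodMatrix A P) ∧ ∀ P, IsPeriodMatrix A P → P.det ≠ 0

end

/-- The good `n`: for all the `(l, e)` in `D` the twist of `X_0(l)` by `-n e` has only finitely many rational
points, and its Tate-Shafarevich group has no element of order two. -/
def GoodN (D : Finset (ℕ × ℕ)) (n : ℕ) : Prop :=
  ∀ x ∈ D, RankZeroShaTwo (fun _ : Fin 1 => E x.1 (n * x.2))

theorem det_period {d : ℕ} {A : Fin d → WeierstrassCurve ℤ} {B C : Matrix (Fin d) (Fin d) ℚ}
    {P : Matrix (Fin d) (Fin d) ℝ}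
    (hP : P = C.map (fun x : ℚ => (x : ℝ)) * Matrix.diagonal (fun j => Omega (A j)) *
      B.map (fun x : ℚ => (x : ℝ))) :
    P.det = ((C.det * B.det : ℚ) : ℝ) * Vinf A := by
  have h1 : ∀ M : Matrix (Fin d) (Fin d) ℚ, (M.map (fun x : ℚ => (x : ℝ))).det = ((M.det : ℚ) : ℝ) := by
    intro M
    have := (RingHom.map_det (Rat.castHom ℝ) M).symm
    exact this
  rw [hP, Matrix.det_mul, Matrix.det_mul, h1, h1, Matrix.det_diagonal]
  unfold Vinf
  push_cast
  ring

theorem beilinson_of {d : ℕ} {A : Fin d → WeierstrassCurve ℤ} (h : TwoPart A)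
    (hΩ : ∀ i, 0 < Omega (A i)) : Beilinson A := by
  obtain ⟨h1, h2, -, L, c, z, h4, h5, h6, h7, h8, h9, h10, h11, -⟩ := h
  have hV : Vinf A ≠ 0 := h8.ne'
  refine ⟨h1, h2, ⟨L, h4, ?_, fun P hP => ?_⟩, ⟨Matrix.diagonal (fun j => Omega (A j)), 1, 1, ?_, ?_, ?_⟩,
    fun P hP => ?_⟩
  · rw [analyticOrderAt_eq_zero]
    exact Or.inr h5
  · obtain ⟨B, C, hB, hC, hP⟩ := hP
    have hdet := det_period hP
    obtain ⟨q, hq⟩ : ∃ q : ℚ, q = C.det * B.det := ⟨_, rfl⟩
    rw [← hq] at hdet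
    have hq0 : q ≠ 0 := by
      rw [hq]
      exact mul_ne_zero hC hB
    refine ⟨z * TamA A c / (torsOrder A : ℚ) ^ 2 / q, ?_, ?_⟩
    · have t1 : ((TamA A c : ℕ) : ℚ) ≠ 0 := by exact_mod_cast h7.ne'
      have t2 : ((torsOrder A : ℕ) : ℚ) ≠ 0 := by exact_mod_cast h9.ne'
      exact div_ne_zero (div_ne_zero (mul_ne_zero h11 t1) (pow_ne_zero 2 t2)) hq0
    · rw [hdet]
      have t1 : ((TamA A c : ℕ) : ℂ) ≠ 0 := by exact_mod_cast h7.ne'
      have t2 : ((torsOrder A : ℕ) : ℂ) ≠ 0 := by exact_mod_cast h9.ne'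
      have t3 : ((Vinf A : ℝ) : ℂ) ≠ 0 := by exact_mod_cast hV
      have t4 : ((q : ℚ) : ℂ) ≠ 0 := by exact_mod_cast hq0
      unfold anOrder at h10
      rw [div_eq_iff (mul_ne_zero t3 t1)] at h10
      have e : L 1 = (z : ℂ) * ((Vinf A : ℝ) * (TamA A c : ℂ)) / (torsOrder A : ℂ) ^ 2 := by
        rw [← h10]
        field_simp
      rw [e]
      push_cast
      field_simp
  · rw [Matrix.det_one]
    exact one_ne_zero
  · rw [Matrix.det_one]
    exact one_ne_zero
  · have e : (1 : Matrix (Fin d) (Fin d) ℚ).map (fun x : ℚ => (x : ℝ)) = 1 :=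
      Matrix.map_one _ Rat.cast_zero Rat.cast_one
    rw [e, one_mul, mul_one]
  · obtain ⟨B, C, hB, hC, hP⟩ := hP
    rw [det_period hP]
    exact mul_ne_zero (by exact_mod_cast mul_ne_zero hC hB) hV

/-- **Main theorem.** -/
theorem main2 :
    (∀ (d : ℕ) (l N : Fin d → ℕ), (∀ i, Allowed (l i) (N i)) → (∀ i, NoOrderFour (N i)) →
      Beilinson (fun i => E (l i) (N i))) ∧
    (∀ (D : Finset (ℕ × ℕ)) (M b : ℕ), 0 < M → (∃ n, Fam D M b n) →
      HasDensity (Fam D M b) (GoodN D) (eta ^ (D.image Prod.snd).card)) ∧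
    (∀ (D : Finset (ℕ × ℕ)) (M b n : ℕ), Fam D M b n → GoodN D n →
      ∀ (d : ℕ) (x : Fin d → ℕ × ℕ), (∀ i, x i ∈ D) →
        Beilinson (fun i => E (x i).1 (n * (x i).2))) ∧
    (∀ (k : ℕ) (l : Fin k → ℕ), (∀ i, l i = 15 ∨ l i = 21 ∨ l i = 24) →
      ∃ e : Fin k → ℕ, Function.Injective e ∧ (∀ i, (e i).Prime) ∧
        Fam (univ.image fun i => (l i, e i)) 1 0 227) ∧
    0.2887 < eta ∧ eta < 0.2889 := by
  have hΩ : ∀ {l N : ℕ}, Allowed l N → 0 < Omega (E l N) := by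
    intro l N h
    obtain ⟨-, ⟨L, c, w, y, -, -, -, -, h5, -⟩, -⟩ := data_all h
    exact h5
  have key : ∀ {D : Finset (ℕ × ℕ)} {M b n : ℕ}, Fam D M b n → ∀ x ∈ D,
      (RankZeroShaTwo (fun _ : Fin 1 => E x.1 (n * x.2)) ↔ Qc (x.2 * n)) := by
    intro D M b n hn x hx
    have h3 := formula_of (A := fun _ : Fin 1 => E x.1 (n * x.2))
      (Q := fun _ => Go (n * x.2)) fun _ => data_all (hn.2.2 x hx).2.2
    rw [h3.2.2.1, go_odd (hn.2.2 x hx).2.1, mul_comm]
    exact ⟨fun h => h 0, fun h _ => h⟩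
  refine ⟨fun d l N h hQ => ?_, fun D M b hM ⟨n₀, h0⟩ => ?_, fun D M b n hn hg d x hx => ?_,
    fun _ _ hl => part_three hl, Pool.Agent.N916.GB.eta_bounds.1, Pool.Agent.N916.GB.eta_bounds.2⟩
  · have h1 := part_one h
    exact beilinson_of (h1.2.2.2.1 (h1.2.2.1.2 hQ)) fun i => hΩ (h i)
  · rcases (D.image Prod.snd).eq_empty_or_nonempty with he | hne
    · rw [he, card_empty, pow_zero]
      have hD : D = ∅ := image_eq_empty.1 he
      subst hD
      have h2 := Pool.Agent.N856.JT.dens_true (P := Fam ∅ M b)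
        (Nat.pos_of_ne_zero h0.1.ne_zero) h0
      exact Pool.Agent.N856.JL.Av.dens_congr (fun _ => Iff.rfl) (fun n _ =>
        ⟨fun _ x hx => absurd hx (notMem_empty x), fun _ => trivial⟩) h2
    · have h1 := law_W hM h0 (W := D.image Prod.snd) (Finset.Subset.refl _) hne
      exact Pool.Agent.N856.JL.Av.dens_congr (fun _ => Iff.rfl) (fun n hn => by
        constructor
        · intro g x hx
          exact (key hn x hx).2 (g _ (mem_image_of_mem _ hx))
        · intro g c hc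
          obtain ⟨x, hx, rfl⟩ := mem_image.1 hc
          exact (key hn x hx).1 (g x hx)) h1
  · have h3 := formula_of (A := fun i => E (x i).1 (n * (x i).2))
      (Q := fun i => Go (n * (x i).2)) fun i => data_all (hn.2.2 (x i) (hx i)).2.2
    refine beilinson_of (h3.2.2.2.1 (h3.2.2.1.2 fun i => ?_)) fun i => hΩ (hn.2.2 (x i) (hx i)).2.2
    rw [go_odd (hn.2.2 (x i) (hx i)).2.1, mul_comm]
    exact (key hn (x i) (hx i)).1 (hg (x i) (hx i))

end Pool.Agent.N856.JM.P
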